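import Pool.Agent.H.MP_7934a7_lc.h89.Sep

/-!
# Definitions for `MP_7934a7_lc.FewExceptions`

The frame is the one of `h89/Defs.lean`; the promise has a bound `e n` for the number of the true
positions of an instance outside `L`.
-/

set_option autoImplicit false

namespace Pool.Agent.H.MP_7934a7_lc.Thr

open Pool.Agent.H.MP_7934a7_lc.h89.OneQ

/-- every instance of length `n` is in `L` or has at most `e n` (of `2^(2n)`) positions with value
`true` -/
def PromiseE (e : ℕ → ℕ) (O : World) : Prop :=
  ∀ (n : ℕ) (x : Ins n), InL O n x ∨ {u : Pos n | HasValue O n x u true}.ncard ≤ e n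

/-- length of the strings and number of questions are bounded by a polynomial -/
def Poly (V : Verifier) : Prop := ∃ d : ℕ, ∀ n, V.len n + V.cost n ≤ (n + 2) ^ d

/-- `e` is bounded by a polynomial -/
def PolyBounded (e : ℕ → ℕ) : Prop := ∃ d : ℕ, ∀ n, e n ≤ (n + 2) ^ d

/-- the `NP` conditions for `L` (at all inputs of length `n`): `y` is a proof, `z` plays no role -/
def ProvesL (V : Verifier) (O : World) (n : ℕ) : Prop :=
  (∀ x, InL O n x → ∃ y, ∀ z, V.value O n x y z = true) ∧
    ∀ x, ¬ InL O n x → ∀ y z, V.value O n x y z = false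

/-- the `NP` conditions for the tally set `T` at the input `1^n` -/
def ProvesT (V : Verifier) (O : World) (n : ℕ) : Prop :=
  (InT O n → ∃ y, ∀ z, V.value O n (fun _ => true) y z = true) ∧
    (¬ InT O n → ∀ y z, V.value O n (fun _ => true) y z = false)

end Pool.Agent.H.MP_7934a7_lc.Thr
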