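import Pool.Agent.H.MP_7934a7_lc.Thr.Defs

/-!
# Few exceptions: growth lemmas
-/

set_option autoImplicit false

namespace Pool.Agent.H.MP_7934a7_lc.Thr

open Filter Topology

theorem exists_large {e : ℕ → ℕ} (h : ¬ PolyBounded e) (d N : ℕ) :
    ∃ n ≥ N, (n + 2) ^ d < e n := by
  by_contra hc
  push Not at hc
  refine h ⟨d + ∑ k ∈ Finset.range N, e k, fun n => ?_⟩
  rcases Nat.lt_or_ge n N with hn | hn
  · have h1 : e n ≤ ∑ k ∈ Finset.range N, e k :=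
      Finset.single_le_sum (f := e) (fun _ _ => Nat.zero_le _) (Finset.mem_range.2 hn)
    calc e n ≤ ∑ k ∈ Finset.range N, e k := h1
      _ ≤ 2 ^ (∑ k ∈ Finset.range N, e k) := Nat.lt_two_pow_self.le
      _ ≤ (n + 2) ^ (∑ k ∈ Finset.range N, e k) := Nat.pow_le_pow_left (by omega) _
      _ ≤ (n + 2) ^ (d + ∑ k ∈ Finset.range N, e k) :=
        Nat.pow_le_pow_right (by omega) (by omega)
  · exact (hc n hn).trans (Nat.pow_le_pow_right (by omega) (by omega))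

theorem poly_le_two_pow (d : ℕ) : ∃ n0 : ℕ, ∀ n ≥ n0, (n + 2) ^ d ≤ 2 ^ (n / 8) := by
  have h := tendsto_pow_const_div_const_pow_of_one_lt d (one_lt_two : (1 : ℝ) < 2)
  have hpos : (0 : ℝ) < 1 / (8 ^ d * 4) := by positivity
  have h1 : ∀ᶠ m : ℕ in atTop, (m : ℝ) ^ d / 2 ^ m < 1 / (8 ^ d * 4) :=
    h.eventually (gt_mem_nhds hpos)
  obtain ⟨m0, hm0⟩ := eventually_atTop.1 h1
  refine ⟨8 * m0, fun n hn => ?_⟩
  have hq : m0 ≤ n / 8 + 2 := by omega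
  have h2 := hm0 _ hq
  rw [div_lt_div_iff₀ (by positivity) (by positivity), one_mul] at h2
  have h3 : (n / 8 + 2) ^ d * (8 ^ d * 4) < 2 ^ (n / 8 + 2) := by exact_mod_cast h2
  have h4 : (n + 2) ^ d ≤ (n / 8 + 2) ^ d * 8 ^ d := by
    rw [← mul_pow]
    exact Nat.pow_le_pow_left (by omega) _
  have h5 : 2 ^ (n / 8 + 2) = 2 ^ (n / 8) * 4 := by rw [pow_add]; norm_num
  have h6 : (n / 8 + 2) ^ d * (8 ^ d * 4) = (n / 8 + 2) ^ d * 8 ^ d * 4 := by ring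
  omega

theorem growth {e : ℕ → ℕ} (he : ¬ PolyBounded e) {L C : ℕ → ℕ} {d : ℕ}
    (h : ∀ n, L n + C n ≤ (n + 2) ^ d) (N : ℕ) :
    ∃ n ≥ N, L n + C n ≤ 2 ^ (n / 8) ∧ 216 * (n + L n + 1) ^ 2 ≤ n * e n := by
  obtain ⟨n0, hn0⟩ := poly_le_two_pow d
  obtain ⟨n, hn, hl⟩ := exists_large he (2 * d + 10) (N + n0 + 1)
  refine ⟨n, by omega, (h n).trans (hn0 n (by omega)), ?_⟩
  have hn1 : 1 ≤ n := by omega
  have h1 : L n ≤ (n + 2) ^ d := by have := h n; omega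
  have h2 : (1 : ℕ) ≤ (n + 2) ^ d := Nat.one_le_pow _ _ (by omega)
  have h3 : n + L n + 1 ≤ 2 * ((n + 2) ^ d * (n + 2)) := by nlinarith
  have h4 : 864 ≤ (n + 2) ^ 8 :=
    le_trans (by norm_num) (Nat.pow_le_pow_left (show 3 ≤ n + 2 by omega) 8)
  calc 216 * (n + L n + 1) ^ 2 ≤ 216 * (2 * ((n + 2) ^ d * (n + 2))) ^ 2 :=
        Nat.mul_le_mul_left _ (Nat.pow_le_pow_left h3 2)
    _ = 864 * (n + 2) ^ (2 * d + 2) := by ring
    _ ≤ (n + 2) ^ 8 * (n + 2) ^ (2 * d + 2) := Nat.mul_le_mul_right _ h4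
    _ = (n + 2) ^ (2 * d + 10) := by ring
    _ ≤ e n := hl.le
    _ ≤ n * e n := Nat.le_mul_of_pos_left _ hn1

/-- the bound for the length of the strings of the positive part -/
theorem poly_list {e : ℕ → ℕ} (he : PolyBounded e) :
    ∃ d : ℕ, ∀ n, (n + (e n + 1) * (4 * n)) + (e n + 1) ≤ (n + 2) ^ d := by
  obtain ⟨d, hd⟩ := he
  refine ⟨d + 6, fun n => ?_⟩
  have h1 := hd n
  have h2 : (1 : ℕ) ≤ (n + 2) ^ d := Nat.one_le_pow _ _ (by omega)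
  have h3 : e n + 1 ≤ 2 * (n + 2) ^ d := by omega
  have h4 : (n + (e n + 1) * (4 * n)) + (e n + 1) ≤ (e n + 1) * (5 * n + 1) := by nlinarith
  calc (n + (e n + 1) * (4 * n)) + (e n + 1) ≤ (e n + 1) * (5 * n + 1) := h4
    _ ≤ (2 * (n + 2) ^ d) * (5 * n + 1) := Nat.mul_le_mul_right _ h3
    _ ≤ (2 * (n + 2) ^ d) * (16 * (n + 2)) := Nat.mul_le_mul_left _ (by omega)
    _ = (n + 2) ^ d * (32 * (n + 2)) := by ring
    _ ≤ (n + 2) ^ d * ((n + 2) ^ 5 * (n + 2)) := by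
        refine Nat.mul_le_mul_left _ (Nat.mul_le_mul_right _ ?_)
        exact le_trans (by norm_num) (Nat.pow_le_pow_left (show 2 ≤ n + 2 by omega) 5)
    _ = (n + 2) ^ (d + 6) := by ring

end Pool.Agent.H.MP_7934a7_lc.Thr
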