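import Pool.Agent.H.MP_7934a7_lc.helper50.Core

set_option autoImplicit false

/-!
# An oracle relative to which `NO_2 ∩ YO_2` is not low for `NO_2`: few exceptions

There is an oracle `O`, a language `A` in `UP^O ∩ coUP^O` (so in `NO_2^O ∩ YO_2^O`) and a tally
language that is in `O_2^A` (even in `BPP^A`, with few bad random strings), but is decided by no
`S_2^O` verifier. Definitions and the negative part.
-/

namespace Pool.Agent.H.MP_7934a7_lc.Thr.Maj

open Finset

/-- positions (the strings whose value is certified by the oracle) of length `n` -/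
abbrev Pos (n : ℕ) := Fin n → Bool

/-- witness strings for the positions of length `n` -/
abbrev Wit (n : ℕ) := Fin (2 * n) → Bool

/-- An oracle. `O n u w = some b`: the witness `w` certifies that position `u` has value `b`.
`O n u w = none`: the string `w` certifies nothing about `u`.
As a language: `{(u, b, w) | O |u| u w = some b}`. -/
abbrev World := (n : ℕ) → Pos n → Wit n → Option Bool

/-- every position has exactly one witness (and so exactly one value) -/
def Valid (O : World) : Prop := ∀ (n : ℕ) (u : Pos n), ∃! w : Wit n, ∃ b : Bool, O n u w = some b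

/-- position `u` has the certified value `b` -/
def HasValue (O : World) (n : ℕ) (u : Pos n) (b : Bool) : Prop := ∃ w : Wit n, O n u w = some b

/-- number of positions of length `n` with value `b` -/
noncomputable def count (O : World) (n : ℕ) (b : Bool) : ℕ := {u : Pos n | HasValue O n u b}.ncard

/-- at every length all but at most `e n` of the `2^n` positions have the same value -/
def Promise (e : ℕ → ℕ) (O : World) : Prop :=
  ∀ n : ℕ, count O n false ≤ e n ∨ count O n true ≤ e n

/-- the tally language: `1^n` is in it iff most positions of length `n` have value `true` -/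
def Majority (O : World) (n : ℕ) : Prop := count O n false < count O n true

/-- Adaptive algorithms with output in `{0,1}` that ask the oracle for values `O n u w`, of all
lengths `n`. -/
inductive Alg : Type
  | out (b : Bool) : Alg
  | look (n : ℕ) (u : Pos n) (w : Wit n) (next : Option Bool → Alg) : Alg

/-- run an algorithm relative to an oracle -/
def Alg.run (O : World) : Alg → Bool
  | .out b => b
  | .look n u w next => (next (O n u w)).run O

/-- the algorithm asks at most `k` questions on every path -/
def Alg.AtMost : Alg → ℕ → Prop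
  | .out _, _ => True
  | .look _ _ _ _, 0 => False
  | .look _ _ _ next, k + 1 => ∀ a, (next a).AtMost k

/-- A two-prover verifier on the inputs `1^n`: from the strings `y` and `z` of the two provers it
computes, in an arbitrary way, an adaptive algorithm that asks the oracle questions. -/
structure Verifier where
  /-- length of the strings of the provers -/
  len : ℕ → ℕ
  /-- bound for the number of questions -/
  cost : ℕ → ℕ
  /-- the computation of the verifier -/
  alg : (n : ℕ) → (Fin (len n) → Bool) → (Fin (len n) → Bool) → Alg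
  alg_cost : ∀ n y z, (alg n y z).AtMost (cost n)

/-- the value of the verifier -/
def Verifier.value (V : Verifier) (O : World) (n : ℕ) (y z : Fin (V.len n) → Bool) : Bool :=
  (V.alg n y z).run O

/-- the `S_2` acceptance condition of the tally language at the input `1^n` -/
def Verifier.Correct (V : Verifier) (O : World) (n : ℕ) : Prop :=
  (Majority O n → ∃ y, ∀ z, V.value O n y z = true) ∧
    (¬ Majority O n → ∃ z, ∀ y, V.value O n y z = false)

/-- Majority at the input `1^n` is decided by proofs `y` (`z` plays no role): an `NP` condition -/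
def Verifier.ProvesYes (V : Verifier) (O : World) (n : ℕ) : Prop :=
  (Majority O n → ∃ y, ∀ z, V.value O n y z = true) ∧
    (¬ Majority O n → ∀ y z, V.value O n y z = false)

/-- Majority at the input `1^n` is decided by disproofs `z` (`y` plays no role): a `coNP`
condition -/
def Verifier.ProvesNo (V : Verifier) (O : World) (n : ℕ) : Prop :=
  (Majority O n → ∀ y z, V.value O n y z = true) ∧
    (¬ Majority O n → ∃ z, ∀ y, V.value O n y z = false)

/-- length of the strings and number of questions are bounded by a polynomial -/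
def Verifier.Poly (V : Verifier) : Prop := ∃ d : ℕ, ∀ n, V.len n + V.cost n ≤ (n + 2) ^ d

/-- `e` is bounded by a polynomial -/
def PolyBounded (e : ℕ → ℕ) : Prop := ∃ d : ℕ, ∀ n, e n ≤ (n + 2) ^ d

/-- The language at length `n` is decided by the protocol `∀ j ∃ i, A(s_i + t_j) = 1` of two
provers sending three and eight positions, where `A` is the language of the positions with value
`true`. -/
def ThreeEight (O : World) (n : ℕ) : Prop :=
  (Majority O n → ∃ s : Fin 3 → Pos n, ∀ t : Fin 8 → Pos n, ∀ j, ∃ i,
      HasValue O n (fun k => xor (s i k) (t j k)) true) ∧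
    (¬ Majority O n → ∃ t : Fin 8 → Pos n, ∀ s : Fin 3 → Pos n, ∃ j, ∀ i,
      HasValue O n (fun k => xor (s i k) (t j k)) false)

/-! ### Counting -/

/-- positions with value `b` at one length -/
noncomputable def valSet {n : ℕ} (g : Pos n → Wit n → Option Bool) (b : Bool) : Finset (Pos n) :=
  by classical exact univ.filter (fun u => ∃ w, g u w = some b)

lemma count_eq (O : World) (n : ℕ) (b : Bool) : count O n b = (valSet (O n) b).card := by
  classical
  unfold count
  rw [← Set.ncard_coe_finset]
  congr 1
  ext u
  simp [valSet, HasValue]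

lemma mem_valSet {O : World} {n : ℕ} {u : Pos n} {b : Bool} (h : HasValue O n u b) :
    u ∈ valSet (O n) b := by
  classical
  simp only [valSet, mem_filter, mem_univ, true_and]
  exact h

lemma hasValue_or {O : World} (hO : Valid O) (n : ℕ) (u : Pos n) :
    HasValue O n u true ∨ HasValue O n u false := by
  obtain ⟨w, ⟨b, hb⟩, -⟩ := hO n u
  cases b
  · exact Or.inr ⟨w, hb⟩
  · exact Or.inl ⟨w, hb⟩

lemma not_both {O : World} (hO : Valid O) (n : ℕ) (u : Pos n) :
    ¬ (HasValue O n u true ∧ HasValue O n u false) := by
  rintro ⟨⟨w, hw⟩, ⟨w', hw'⟩⟩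
  have := (hO n u).unique ⟨true, hw⟩ ⟨false, hw'⟩
  subst this
  rw [hw] at hw'
  simp at hw'

lemma count_add {O : World} (hO : Valid O) (n : ℕ) :
    count O n false + count O n true = 2 ^ n := by
  classical
  have h1 : {u : Pos n | HasValue O n u false} ∪ {u : Pos n | HasValue O n u true} = Set.univ := by
    ext u
    simpa using (hasValue_or hO n u).symm
  have h2 : Disjoint {u : Pos n | HasValue O n u false} {u : Pos n | HasValue O n u true} := by
    rw [Set.disjoint_left]
    intro u hu hu'
    exact not_both hO n u ⟨hu', hu⟩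
  have h3 := Set.ncard_union_eq h2 (Set.toFinite _) (Set.toFinite _)
  rw [h1, Set.ncard_univ] at h3
  unfold count
  rw [← h3]
  simp

lemma half_lt {n : ℕ} (hn : 3 ≤ n) : 2 * 2 ^ (n / 2) < 2 ^ n := by
  calc 2 * 2 ^ (n / 2) = 2 ^ (n / 2 + 1) := by ring
    _ < 2 ^ n := Nat.pow_lt_pow_right (by norm_num) (by omega)

lemma majority_of_zeros {O : World} (hO : Valid O) {n : ℕ} (hn : 3 ≤ n)
    (h : count O n false ≤ 2 ^ (n / 2)) : Majority O n := by
  have h1 := count_add hO n
  have h2 := half_lt hn
  unfold Majority
  omega

lemma not_majority_of_ones {O : World} (hO : Valid O) {n : ℕ} (hn : 3 ≤ n)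
    (h : count O n true ≤ 2 ^ (n / 2)) : ¬ Majority O n := by
  have h1 := count_add hO n
  have h2 := half_lt hn
  unfold Majority
  omega

/-! ### The upper bound: three shifts against eight -/

section cover

variable {P : Type*} [Fintype P] [DecidableEq P]

lemma cover_yes (σ : P → P → P) (hσ : ∀ t, Function.Injective (fun s => σ s t)) (Z : Finset P)
    (h : Fintype.card P * Z.card ^ 3 < Fintype.card P ^ 3) :
    ∃ s : Fin 3 → P, ∀ t, ∃ i, σ (s i) t ∉ Z := by
  classical
  by_contra hcon
  push Not at hcon
  have h1 : (univ : Finset (Fin 3 → P)) ⊆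
      univ.biUnion (fun t => Fintype.piFinset (fun _ : Fin 3 => univ.filter (fun s => σ s t ∈ Z))) := by
    intro s _
    obtain ⟨t, ht⟩ := hcon s
    simp only [mem_biUnion, mem_univ, true_and, Fintype.mem_piFinset, mem_filter]
    exact ⟨t, ht⟩
  have h2 := card_le_card h1
  have h3 : ∀ t, (univ.filter (fun s => σ s t ∈ Z)).card ≤ Z.card := by
    intro t
    refine card_le_card_of_injOn (fun s => σ s t) ?_ ((hσ t).injOn)
    intro s hs
    simpa using hs
  have h4 : (univ.biUnion (fun t => Fintype.piFinset
      (fun _ : Fin 3 => univ.filter (fun s => σ s t ∈ Z)))).card ≤ Fintype.card P * Z.card ^ 3 := by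
    refine le_trans card_biUnion_le ?_
    calc _ ≤ ∑ _t : P, Z.card ^ 3 := by
          refine sum_le_sum (fun t _ => ?_)
          rw [Fintype.card_piFinset]
          simp only [prod_const, card_univ, Fintype.card_fin]
          exact Nat.pow_le_pow_left (h3 t) 3
      _ = _ := by simp
  rw [card_univ, Fintype.card_fun, Fintype.card_fin] at h2
  omega

lemma cover_no (σ : P → P → P) (hσ : ∀ s, Function.Injective (fun t => σ s t)) (Z : Finset P)
    (h : Fintype.card P ^ 3 * (3 * Z.card) ^ 8 < Fintype.card P ^ 8) :
    ∃ t : Fin 8 → P, ∀ s : Fin 3 → P, ∃ j, ∀ i, σ (s i) (t j) ∉ Z := by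
  classical
  by_contra hcon
  push Not at hcon
  have h1 : (univ : Finset (Fin 8 → P)) ⊆
      (univ : Finset (Fin 3 → P)).biUnion (fun s => Fintype.piFinset
        (fun _ : Fin 8 => univ.filter (fun t => ∃ i, σ (s i) t ∈ Z))) := by
    intro t _
    obtain ⟨s, hs⟩ := hcon t
    simp only [mem_biUnion, mem_univ, true_and, Fintype.mem_piFinset, mem_filter]
    exact ⟨s, hs⟩
  have h2 := card_le_card h1
  have h3 : ∀ s : Fin 3 → P, (univ.filter (fun t => ∃ i, σ (s i) t ∈ Z)).card ≤ 3 * Z.card := by
    intro s
    have hsub : univ.filter (fun t => ∃ i, σ (s i) t ∈ Z) ⊆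
        (univ : Finset (Fin 3)).biUnion (fun i => univ.filter (fun t => σ (s i) t ∈ Z)) := by
      intro t ht
      simpa using ht
    refine le_trans (card_le_card hsub) (le_trans card_biUnion_le ?_)
    calc _ ≤ ∑ _i : Fin 3, Z.card := by
          refine sum_le_sum (fun i _ => ?_)
          refine card_le_card_of_injOn (fun t => σ (s i) t) ?_ ((hσ (s i)).injOn)
          intro t ht
          simpa using ht
      _ = _ := by simp
  have h4 : ((univ : Finset (Fin 3 → P)).biUnion (fun s => Fintype.piFinset
      (fun _ : Fin 8 => univ.filter (fun t => ∃ i, σ (s i) t ∈ Z)))).card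
      ≤ Fintype.card P ^ 3 * (3 * Z.card) ^ 8 := by
    refine le_trans card_biUnion_le ?_
    calc _ ≤ ∑ _s : Fin 3 → P, (3 * Z.card) ^ 8 := by
          refine sum_le_sum (fun s _ => ?_)
          rw [Fintype.card_piFinset]
          simp only [prod_const, card_univ, Fintype.card_fin]
          exact Nat.pow_le_pow_left (h3 s) 8
      _ = _ := by simp
  rw [card_univ, Fintype.card_fun, Fintype.card_fin] at h2
  omega

end cover

lemma xor_inj_left {n : ℕ} (t : Pos n) :
    Function.Injective (fun s : Pos n => (fun k => xor (s k) (t k) : Pos n)) := by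
  intro a b hab
  funext k
  have := congrFun hab k
  simp only at this
  revert this
  cases a k <;> cases b k <;> cases t k <;> simp

lemma xor_inj_right {n : ℕ} (s : Pos n) :
    Function.Injective (fun t : Pos n => (fun k => xor (s k) (t k) : Pos n)) := by
  intro a b hab
  funext k
  have := congrFun hab k
  simp only at this
  revert this
  cases a k <;> cases b k <;> cases s k <;> simp

lemma threeEight {e : ℕ → ℕ} (he : ∀ n, e n ≤ 2 ^ (n / 2)) {O : World} (hO : Valid O)
    (hPe : Promise e O) {n : ℕ} (hn : 13 ≤ n) : ThreeEight O n := by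
  classical
  have hP : ∀ n, count O n false ≤ 2 ^ (n / 2) ∨ count O n true ≤ 2 ^ (n / 2) := fun n =>
    (hPe n).imp (fun h => h.trans (he n)) (fun h => h.trans (he n))
  have hcardP : Fintype.card (Pos n) = 2 ^ n := by simp
  constructor
  · intro hmaj
    have hz : count O n false ≤ 2 ^ (n / 2) := by
      rcases hP n with h | h
      · exact h
      · exact absurd hmaj (not_majority_of_ones hO (by omega) h)
    rw [count_eq] at hz
    have hlt : Fintype.card (Pos n) * (valSet (O n) false).card ^ 3 < Fintype.card (Pos n) ^ 3 := by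
      rw [hcardP]
      calc 2 ^ n * (valSet (O n) false).card ^ 3 ≤ 2 ^ n * (2 ^ (n / 2)) ^ 3 :=
            Nat.mul_le_mul_left _ (Nat.pow_le_pow_left hz 3)
        _ = 2 ^ (n + n / 2 * 3) := by rw [← pow_mul, ← pow_add]
        _ < 2 ^ (n * 3) := Nat.pow_lt_pow_right (by norm_num) (by omega)
        _ = (2 ^ n) ^ 3 := by rw [pow_mul]
    obtain ⟨s, hs⟩ := cover_yes (fun a b : Pos n => (fun k => xor (a k) (b k) : Pos n))
      xor_inj_left _ hlt
    refine ⟨s, fun t j => ?_⟩
    obtain ⟨i, hi⟩ := hs (t j)
    refine ⟨i, ?_⟩
    rcases hasValue_or hO n (fun k => xor (s i k) (t j k)) with h | h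
    · exact h
    · exact absurd (mem_valSet h) hi
  · intro hmaj
    have hz : count O n true ≤ 2 ^ (n / 2) := by
      rcases hP n with h | h
      · exact absurd (majority_of_zeros hO (by omega) h) hmaj
      · exact h
    rw [count_eq] at hz
    have hlt : Fintype.card (Pos n) ^ 3 * (3 * (valSet (O n) true).card) ^ 8
        < Fintype.card (Pos n) ^ 8 := by
      rw [hcardP]
      calc (2 ^ n) ^ 3 * (3 * (valSet (O n) true).card) ^ 8
          ≤ (2 ^ n) ^ 3 * (3 * 2 ^ (n / 2)) ^ 8 :=
            Nat.mul_le_mul_left _ (Nat.pow_le_pow_left (Nat.mul_le_mul_left _ hz) 8)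
        _ = 6561 * 2 ^ (n * 3 + n / 2 * 8) := by
            rw [mul_pow, ← pow_mul, ← pow_mul, pow_add]; ring
        _ < 8192 * 2 ^ (n * 3 + n / 2 * 8) := by
            have : 0 < 2 ^ (n * 3 + n / 2 * 8) := by positivity
            omega
        _ = 2 ^ (13 + (n * 3 + n / 2 * 8)) := by
            rw [pow_add 2 13]; norm_num
        _ ≤ 2 ^ (n * 8) := Nat.pow_le_pow_right (by norm_num) (by omega)
        _ = (2 ^ n) ^ 8 := by rw [pow_mul]
    obtain ⟨t, ht⟩ := cover_no (fun a b : Pos n => (fun k => xor (a k) (b k) : Pos n))
      xor_inj_right _ hlt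
    refine ⟨t, fun s => ?_⟩
    obtain ⟨j, hj⟩ := ht s
    refine ⟨j, fun i => ?_⟩
    rcases hasValue_or hO n (fun k => xor (s i k) (t j k)) with h | h
    · exact absurd (mem_valSet h) (hj i)
    · exact h

/-! ### Algorithms at one length are decision trees -/

open Pool.Agent.H.MP_7934a7_lc.helper50 (Tree)

/-- the part of the algorithm that asks at length `n`, the oracle being fixed at other lengths -/
def Alg.toTree (O : World) (n : ℕ) : Alg → Tree (Pos n) (Wit n)
  | .out b => .out b
  | .look k u w next =>
    if h : k = n then .ask (h ▸ u) (h ▸ w) (fun a => (next a).toTree O n)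
    else (next (O k u w)).toTree O n

/-- the oracle at length `n` with witnesses `l` and values `v` -/
def world {n : ℕ} (l : Pos n → Wit n) (v : Pos n → Bool) : Pos n → Wit n → Option Bool :=
  fun u w => if w = l u then some (v u) else none

lemma Alg.run_toTree (O : World) (n : ℕ) (l : Pos n → Wit n) (v : Pos n → Bool) (T : Alg) :
    T.run (Function.update O n (world l v)) = (T.toTree O n).run l v := by
  induction T with
  | out b => simp [Alg.run, Alg.toTree, Tree.run]
  | look k u w next ih =>
    by_cases hk : k = n
    · subst hk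
      simp only [Alg.run, Alg.toTree, dif_pos, Function.update_self, Tree.run]
      rw [ih]
      rfl
    · simp only [Alg.run, Alg.toTree, dif_neg hk, Function.update_of_ne hk]
      exact ih _

lemma tree_succ {P W : Type*} (T : Tree P W) :
    ∀ k, T.AtMost k → T.AtMost (k + 1) := by
  induction T with
  | out b => intro k _; simp [Tree.AtMost]
  | ask p w next ih =>
    intro k hk
    cases k with
    | zero => exact absurd hk (by simp [Tree.AtMost])
    | succ k =>
      have hk' : ∀ a, (next a).AtMost k := by simpa [Tree.AtMost] using hk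
      have : ∀ a, (next a).AtMost (k + 1) := fun a => ih a k (hk' a)
      simpa [Tree.AtMost] using this

lemma Alg.atMost_toTree (O : World) (n : ℕ) (T : Alg) :
    ∀ k, T.AtMost k → (T.toTree O n).AtMost k := by
  induction T with
  | out b => intro k _; simp [Alg.toTree, Tree.AtMost]
  | look j u w next ih =>
    intro k hk
    cases k with
    | zero => exact absurd hk (by simp [Alg.AtMost])
    | succ k =>
      have hk' : ∀ a, (next a).AtMost k := by simpa [Alg.AtMost] using hk
      by_cases hj : j = n
      · simp only [Alg.toTree, dif_pos hj, Tree.AtMost]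
        exact fun a => ih a k (hk' a)
      · simp only [Alg.toTree, dif_neg hj]
        exact tree_succ _ _ (ih _ k (hk' _))

/-- largest length of a question -/
def Alg.maxLen : Alg → ℕ
  | .out _ => 0
  | .look k _ _ next => max k (Finset.univ.sup (fun a => (next a).maxLen))

lemma Alg.run_congr (O O' : World) (T : Alg) (h : ∀ k ≤ T.maxLen, O k = O' k) :
    T.run O = T.run O' := by
  induction T with
  | out r => rfl
  | look k u w next ih =>
    simp only [Alg.run]
    have h1 : O k = O' k := h k (le_max_left _ _)
    rw [h1]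
    refine ih _ (fun j hj => h j (le_trans hj ?_))
    exact le_trans (Finset.le_sup (f := fun a => (next a).maxLen) (mem_univ (O' k u w)))
      (le_max_right _ _)

/-! ### One stage -/

lemma bound_one {L C n : ℕ} (hn : 96 ≤ n) (h : L + C ≤ 2 ^ (n / 8)) :
    2 ^ 62 * (8 * (L + 1) + 1) * (C + 1) ≤ 2 ^ n := by
  set q := n / 8 with hq
  have hQ : 1 ≤ 2 ^ q := Nat.one_le_two_pow
  have h1 : 8 * (L + 1) + 1 ≤ 17 * 2 ^ q := by omega
  have h2 : C + 1 ≤ 2 * 2 ^ q := by omega
  calc 2 ^ 62 * (8 * (L + 1) + 1) * (C + 1)
      ≤ 2 ^ 62 * (17 * 2 ^ q) * (2 * 2 ^ q) :=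
        Nat.mul_le_mul (Nat.mul_le_mul_left _ h1) h2
    _ = 34 * 2 ^ (62 + q + q) := by rw [pow_add, pow_add]; ring
    _ ≤ 2 ^ 6 * 2 ^ (62 + q + q) := Nat.mul_le_mul_right _ (by norm_num)
    _ = 2 ^ (6 + (62 + q + q)) := by rw [← pow_add]
    _ ≤ 2 ^ n := Nat.pow_le_pow_right (by norm_num) (by omega)

lemma bound_two {L n E : ℕ} (hn : 1 ≤ n) (h : 216 * (L + 1) ^ 2 ≤ n * E) :
    2 ^ (8 * (L + 1) * (25 * (L + 1) + 2)) < (2 ^ n) ^ (E + 1) := by
  rw [← pow_mul]
  refine Nat.pow_lt_pow_right (by norm_num) ?_
  have h1 : 8 * (L + 1) * (25 * (L + 1) + 2) ≤ 216 * (L + 1) ^ 2 := by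
    have : 1 ≤ L + 1 := by omega
    nlinarith
  calc _ ≤ _ := h1
    _ ≤ n * E := h
    _ < n * (E + 1) := by
      rw [Nat.mul_add]
      omega

lemma stage {e : ℕ → ℕ} (he : ∀ n, e n ≤ 2 ^ (n / 2)) (V : Verifier) (O : World) (hO : Valid O)
    (hP : Promise e O) {n : ℕ} (hn : 96 ≤ n) (hV : V.len n + V.cost n ≤ 2 ^ (n / 8))
    (hVe : 216 * (V.len n + 1) ^ 2 ≤ n * e n) :
    ∃ G : Pos n → Wit n → Option Bool, Valid (Function.update O n G) ∧
      Promise e (Function.update O n G) ∧ ¬ V.Correct (Function.update O n G) n := by
  classical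
  by_contra hcon
  push Not at hcon
  have hval : ∀ (l : Pos n → Wit n) (v : Pos n → Bool),
      Valid (Function.update O n (world l v)) := by
    intro l v k
    by_cases hk : k = n
    · subst hk
      rw [Function.update_self]
      intro u
      refine ⟨l u, ⟨v u, by simp [world]⟩, ?_⟩
      rintro w ⟨b, hb⟩
      by_contra hw
      simp [world, hw] at hb
    · rw [Function.update_of_ne hk]
      exact hO k
  have hset : ∀ (l : Pos n → Wit n) (v : Pos n → Bool) (b : Bool),
      valSet (world l v) b = univ.filter (fun u => v u = b) := by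
    intro l v b
    ext u
    simp only [valSet, world, mem_filter, mem_univ, true_and]
    constructor
    · rintro ⟨w, hw⟩
      by_cases h : w = l u
      · simpa [h] using hw
      · simp [h] at hw
    · intro h
      exact ⟨l u, by simp [h]⟩
  have hcount : ∀ (l : Pos n → Wit n) (v : Pos n → Bool) (b : Bool),
      count (Function.update O n (world l v)) n b = (univ.filter (fun u => v u = b)).card := by
    intro l v b
    rw [count_eq, Function.update_self, hset]
  have hprom : ∀ (l : Pos n → Wit n) (v : Pos n → Bool) (b : Bool),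
      (univ.filter (fun u => v u = b)).card ≤ e n →
      Promise e (Function.update O n (world l v)) := by
    intro l v b hb k
    by_cases hk : k = n
    · subst hk
      rw [hcount, hcount]
      cases b
      · exact Or.inl hb
      · exact Or.inr hb
    · have h1 : ∀ b, count (Function.update O n (world l v)) k b = count O k b := by
        intro b
        rw [count_eq, count_eq, Function.update_of_ne hk]
      rw [h1, h1]
      exact hP k
  refine Pool.Agent.H.MP_7934a7_lc.helper50.core
    (S := Fin (V.len n) → Bool) (P := Pos n) (W := Wit n)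
    (fun y z => (V.alg n y z).toTree O n) (b := 2 ^ n) (d := V.cost n) (m := V.len n + 1)
    (r := e n) (by omega) ?_ ?_ ?_ (bound_one hn hV) (bound_two (by omega) hVe) ?_
  · simp only [Fintype.card_fun, Fintype.card_bool, Fintype.card_fin]
    exact Nat.pow_le_pow_right (by norm_num) (by omega)
  · intro y z
    exact Alg.atMost_toTree O n _ _ (V.alg_cost n y z)
  · simp only [Fintype.card_fun, Fintype.card_bool, Fintype.card_fin]
    rw [← pow_mul]; congr 1; ring
  · intro s l v hs
    have hs' : (univ.filter (fun u => v u = !s)).card ≤ e n := by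
      have : univ.filter (fun u => v u = !s) = univ.filter (fun u => v u ≠ s) := by
        ext u
        simp only [mem_filter, mem_univ, true_and]
        cases v u <;> cases s <;> simp
      rw [this]
      exact hs
    have hcor := hcon _ (hval l v) (hprom l v _ hs')
    cases s
    · have hmaj : ¬ Majority (Function.update O n (world l v)) n :=
        not_majority_of_ones (hval l v) (by omega)
          (by rw [hcount]; simpa using hs'.trans (he n))
      obtain ⟨z, hz⟩ := hcor.2 hmaj
      refine ⟨z, fun y => ?_⟩
      have := hz y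
      unfold Verifier.value at this
      rw [Alg.run_toTree] at this
      simpa [Pool.Agent.H.MP_7934a7_lc.helper50.side] using this
    · have hmaj : Majority (Function.update O n (world l v)) n :=
        majority_of_zeros (hval l v) (by omega)
          (by rw [hcount]; simpa using hs'.trans (he n))
      obtain ⟨y, hy⟩ := hcor.1 hmaj
      refine ⟨y, fun z => ?_⟩
      have := hy z
      unfold Verifier.value at this
      rw [Alg.run_toTree] at this
      simpa [Pool.Agent.H.MP_7934a7_lc.helper50.side] using this

/-! ### The diagonal construction -/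

/-- stages: an admissible oracle and the length below which it is final -/
def Stage (e : ℕ → ℕ) : Type := {p : World × ℕ // Valid p.1 ∧ Promise e p.1}

lemma next_stage {e : ℕ → ℕ} (he : ∀ n, e n ≤ 2 ^ (n / 2)) (V : Verifier)
    (hV : ∀ N, ∃ n ≥ N, V.len n + V.cost n ≤ 2 ^ (n / 8) ∧ 216 * (V.len n + 1) ^ 2 ≤ n * e n)
    (s : Stage e) : ∃ s' : Stage e, s.1.2 < s'.1.2 ∧ (∀ k < s.1.2, s'.1.1 k = s.1.1 k) ∧
      ∃ n ≥ s.1.2, ∀ O' : World, (∀ k < s'.1.2, O' k = s'.1.1 k) → ¬ V.Correct O' n := by
  classical
  obtain ⟨⟨O, h⟩, hO, hP⟩ := s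
  obtain ⟨n, hn, hsmall, hsmall2⟩ := hV (max h 96)
  have hn1 : h ≤ n := le_trans (le_max_left _ _) hn
  have hn2 : 96 ≤ n := le_trans (le_max_right _ _) hn
  obtain ⟨G, h1, h2, h3⟩ := stage he V O hO hP hn2 hsmall hsmall2
  let H : ℕ := max n (univ.sup (fun y => univ.sup (fun z => (V.alg n y z).maxLen))) + 1
  refine ⟨⟨(Function.update O n G, H), h1, h2⟩, ?_, ?_, n, hn1, ?_⟩
  · have : n ≤ max n (univ.sup (fun y => univ.sup (fun z => (V.alg n y z).maxLen))) :=
      le_max_left _ _
    simp only [H]
    omega
  · intro k hk
    simp only at hk ⊢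
    exact Function.update_of_ne (by omega) _ _
  · intro O' hO' hcor
    apply h3
    have hn3 : O' n = Function.update O n G n := hO' n (by
      simp only [H]
      exact Nat.lt_succ_of_le (le_max_left _ _))
    have hmaj : Majority O' n ↔ Majority (Function.update O n G) n := by
      unfold Majority
      rw [count_eq, count_eq, count_eq, count_eq, hn3]
    have hval : ∀ y z, V.value O' n y z = V.value (Function.update O n G) n y z := by
      intro y z
      unfold Verifier.value
      refine Alg.run_congr _ _ _ (fun k hk => hO' k ?_)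
      simp only [H]
      refine Nat.lt_succ_of_le (le_trans hk ?_)
      refine le_trans ?_ (le_max_right _ _)
      refine le_trans ?_ (Finset.le_sup
        (f := fun y => univ.sup (fun z => (V.alg n y z).maxLen)) (mem_univ y))
      exact Finset.le_sup (f := fun z => (V.alg n y z).maxLen) (mem_univ z)
    unfold Verifier.Correct at hcor ⊢
    rw [hmaj] at hcor
    simp only [hval] at hcor
    exact hcor

/-- an admissible oracle -/
lemma exists_base (e : ℕ → ℕ) : ∃ O : World, Valid O ∧ Promise e O := by
  classical
  refine ⟨fun n u w => if w = (fun _ => false) then some true else none, ?_, ?_⟩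
  · intro n u
    refine ⟨fun _ => false, ⟨true, by simp⟩, ?_⟩
    rintro w ⟨b, hb⟩
    by_contra hw
    simp [hw] at hb
  · intro n
    left
    have : count (fun n (u : Pos n) (w : Wit n) =>
        if w = (fun _ => false) then some true else none) n false = 0 := by
      unfold count
      rw [Set.ncard_eq_zero]
      ext u
      simp only [Set.mem_ofPred_eq, Set.mem_empty_iff_false, iff_false, HasValue]
      rintro ⟨w, hw⟩
      by_cases h : w = (fun _ => false)
      · simp [h] at hw
      · simp [h] at hw
    rw [this]
    exact Nat.zero_le _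

/-- **The negative part.** -/
theorem neg {e : ℕ → ℕ} (he : ∀ n, e n ≤ 2 ^ (n / 2)) (V : ℕ → Verifier)
    (hV : ∀ i N, ∃ n ≥ N, (V i).len n + (V i).cost n ≤ 2 ^ (n / 8) ∧
      216 * ((V i).len n + 1) ^ 2 ≤ n * e n) :
    ∃ O : World, Valid O ∧ Promise e O ∧ (∀ n ≥ 13, ThreeEight O n) ∧
      ∀ i N, ∃ n ≥ N, ¬ (V i).Correct O n := by
  classical
  obtain ⟨O₀, hO₀, hP₀⟩ := exists_base e
  let nxt : ℕ → Stage e → Stage e := fun j s =>
    (next_stage he (V (Nat.unpair j).1) (hV _) s).choose
  have hnxt := fun (j : ℕ) (s : Stage e) =>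
    (next_stage he (V (Nat.unpair j).1) (hV _) s).choose_spec
  let S : ℕ → Stage e := fun j => Nat.rec ⟨(O₀, 0), hO₀, hP₀⟩ (fun j s => nxt j s) j
  have hS : ∀ j, S (j + 1) = nxt j (S j) := fun j => rfl
  have hlt : ∀ j, (S j).1.2 < (S (j + 1)).1.2 := by
    intro j
    rw [hS]
    exact (hnxt j (S j)).1
  have hge : ∀ j, j ≤ (S j).1.2 := by
    intro j
    induction j with
    | zero => exact Nat.zero_le _
    | succ j ih =>
      have := hlt j
      omega
  have hmono : ∀ i j, i ≤ j → (S i).1.2 ≤ (S j).1.2 := by
    intro i j hij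
    induction j, hij using Nat.le_induction with
    | base => exact le_rfl
    | succ j _ ih => exact le_trans ih (hlt j).le
  have hagree : ∀ i j, i ≤ j → ∀ k < (S i).1.2, (S j).1.1 k = (S i).1.1 k := by
    intro i j hij
    induction j, hij using Nat.le_induction with
    | base => intro k _; rfl
    | succ j hj ih =>
      intro k hk
      rw [hS]
      rw [← ih k hk]
      exact (hnxt j (S j)).2.1 k (lt_of_lt_of_le hk (hmono i j hj))
  let O : World := fun k => (S (k + 1)).1.1 k
  have hO : ∀ j, ∀ k < (S j).1.2, O k = (S j).1.1 k := by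
    intro j k hk
    rcases le_total (k + 1) j with h | h
    · exact (hagree (k + 1) j h k (hge (k + 1))).symm
    · exact hagree j (k + 1) h k hk
  have hOv : Valid O := fun n => (S (n + 1)).2.1 n
  have hOp : Promise e O := by
    intro n
    have h1 : ∀ b, count O n b = count (S (n + 1)).1.1 n b := by
      intro b
      rw [count_eq, count_eq]
    rw [h1, h1]
    exact (S (n + 1)).2.2 n
  refine ⟨O, hOv, hOp, fun n hn => threeEight he hOv hOp hn, ?_⟩
  intro i N
  obtain ⟨n, hn, hbad⟩ := (hnxt (Nat.pair i N) (S (Nat.pair i N))).2.2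
  refine ⟨n, ?_, ?_⟩
  · have h1 : N ≤ Nat.pair i N := Nat.right_le_pair i N
    have h2 := hge (Nat.pair i N)
    omega
  · have h3 : (Nat.unpair (Nat.pair i N)).1 = i := by simp
    have h4 := hbad O (fun k hk => by
      have := hO (Nat.pair i N + 1) k (by rw [hS]; exact hk)
      rw [this, hS])
    rw [h3] at h4
    exact h4

end Pool.Agent.H.MP_7934a7_lc.Thr.Maj
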