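import Pool.Agent.H.MP_7934a7_lc.Thr.Maj
import Pool.Agent.H.MP_7934a7_lc.Thr.Growth

/-!
# Few exceptions: `NP` and `coNP` verifiers for Majority

`y` (resp. `z`) is a list of `e n + 1` pairs (position, witness), the verifier checks that the
positions are distinct and that every pair has the value `b`.
-/

set_option autoImplicit false

namespace Pool.Agent.H.MP_7934a7_lc.Thr.Maj

/-- the pairs (position, witness) written in a string -/
def dec (n K : ℕ) (y : Fin (K * (3 * n)) → Bool) (i : Fin K) : Pos n × Wit n :=
  (fun j => y (finProdFinEquiv (i, ⟨j.1, by have := j.2; omega⟩)),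
    fun j => y (finProdFinEquiv (i, ⟨n + j.1, by have := j.2; omega⟩)))

theorem dec_surj (n K : ℕ) (f : Fin K → Pos n × Wit n) :
    ∃ y : Fin (K * (3 * n)) → Bool, dec n K y = f := by
  classical
  refine ⟨fun k => if h : (finProdFinEquiv.symm k).2.1 < n then
      (f (finProdFinEquiv.symm k).1).1 ⟨(finProdFinEquiv.symm k).2.1, h⟩
    else (f (finProdFinEquiv.symm k).1).2 ⟨(finProdFinEquiv.symm k).2.1 - n, by
      have := (finProdFinEquiv.symm k).2.2
      omega⟩, ?_⟩
  funext i
  refine Prod.ext ?_ ?_
  · funext j
    have hj := j.2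
    simp only [dec, Equiv.symm_apply_apply]
    rw [dif_pos hj]
  · funext j
    simp only [dec, Equiv.symm_apply_apply]
    rw [dif_neg (by omega)]
    exact congrArg (f i).2 (Fin.ext (by simp))

/-- ask for the values of all pairs; the output is `a` if all are `b`, and `!a` otherwise -/
def chk (n : ℕ) (a b : Bool) : List (Pos n × Wit n) → Alg
  | [] => Alg.out a
  | p :: l => Alg.look n p.1 p.2 fun v => if v = some b then chk n a b l else Alg.out (!a)

theorem chk_atMost (n : ℕ) (a b : Bool) (l : List (Pos n × Wit n)) :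
    (chk n a b l).AtMost l.length := by
  induction l with
  | nil => trivial
  | cons p l ih =>
    intro v
    show (if v = some b then chk n a b l else Alg.out (!a)).AtMost l.length
    split
    · exact ih
    · trivial

theorem chk_run (O : World) (n : ℕ) (a b : Bool) (l : List (Pos n × Wit n)) :
    (chk n a b l).run O = a ↔ ∀ p ∈ l, O n p.1 p.2 = some b := by
  induction l with
  | nil => simp [chk, Alg.run]
  | cons p l ih =>
    show (if O n p.1 p.2 = some b then chk n a b l else Alg.out (!a)).run O = a ↔ _
    by_cases h : O n p.1 p.2 = some b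
    · rw [if_pos h, ih]
      simp [h]
    · rw [if_neg h]
      simp [h, Alg.run]

open Classical in
/-- the check of a list of pairs with distinct positions -/
noncomputable def alg (n K : ℕ) (a b : Bool) (y : Fin (K * (3 * n)) → Bool) : Alg :=
  if Function.Injective (fun i => (dec n K y i).1) then chk n a b (List.ofFn (dec n K y))
  else Alg.out (!a)

theorem alg_atMost (n K : ℕ) (a b : Bool) (y : Fin (K * (3 * n)) → Bool) :
    (alg n K a b y).AtMost K := by
  unfold alg
  split
  · have h := chk_atMost n a b (List.ofFn (dec n K y))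
    rwa [List.length_ofFn] at h
  · cases K <;> trivial

theorem alg_run (O : World) (n K : ℕ) (a b : Bool) (y : Fin (K * (3 * n)) → Bool) :
    (alg n K a b y).run O = a ↔ Function.Injective (fun i => (dec n K y i).1) ∧
      ∀ i, O n (dec n K y i).1 (dec n K y i).2 = some b := by
  unfold alg
  by_cases h : Function.Injective (fun i => (dec n K y i).1)
  · rw [if_pos h, chk_run]
    simp only [h, true_and, List.forall_mem_ofFn_iff]
  · rw [if_neg h]
    simp [h, Alg.run]

theorem alg_yes {O : World} {n K : ℕ} {a b : Bool} (hK : K ≤ count O n b) :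
    ∃ y, (alg n K a b y).run O = a := by
  classical
  have hcard : Fintype.card {u : Pos n // HasValue O n u b} = count O n b := by
    unfold count
    rw [← Nat.card_coe_set_eq, ← Nat.card_eq_fintype_card]
    rfl
  obtain ⟨g⟩ : Nonempty (Fin K ↪ {u : Pos n // HasValue O n u b}) := by
    apply Function.Embedding.nonempty_of_card_le
    rw [hcard]
    simpa using hK
  have hw : ∀ i, ∃ w, O n (g i).1 w = some b := fun i => (g i).2
  choose w hw using hw
  obtain ⟨y, hy⟩ := dec_surj n K fun i => ((g i).1, w i)
  refine ⟨y, (alg_run O n K a b y).2 ?_⟩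
  rw [hy]
  exact ⟨fun i j hij => g.injective (Subtype.ext hij), fun i => hw i⟩

theorem alg_no {O : World} {n K : ℕ} {a b : Bool} (y : Fin (K * (3 * n)) → Bool)
    (h : (alg n K a b y).run O = a) : K ≤ count O n b := by
  obtain ⟨h1, h2⟩ := (alg_run O n _ a b y).1 h
  have h4 : Set.range (fun i => (dec n K y i).1) ⊆ {u : Pos n | HasValue O n u b} := by
    rintro _ ⟨i, rfl⟩
    exact ⟨_, h2 i⟩
  have h5 := Set.ncard_le_ncard h4 (Set.toFinite _)
  rw [← Set.image_univ, Set.ncard_image_of_injective _ h1, Set.ncard_univ] at h5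
  simpa [count] using h5

theorem pos (e : ℕ → ℕ) (he : ∀ n, e n ≤ 2 ^ (n / 2)) : ∃ V V' : Verifier,
    (∀ n, V.len n = (e n + 1) * (3 * n) ∧ V.cost n = e n + 1) ∧
    (∀ n, V'.len n = (e n + 1) * (3 * n) ∧ V'.cost n = e n + 1) ∧
    ∀ O, Valid O → Promise e O → ∀ n ≥ 3, V.ProvesYes O n ∧ V'.ProvesNo O n := by
  refine ⟨⟨fun n => (e n + 1) * (3 * n), fun n => e n + 1,
      fun n y _ => alg n (e n + 1) true true y, fun n y _ => alg_atMost _ _ _ _ _⟩,
    ⟨fun n => (e n + 1) * (3 * n), fun n => e n + 1,
      fun n _ z => alg n (e n + 1) false false z, fun n _ z => alg_atMost _ _ _ _ _⟩,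
    fun n => ⟨rfl, rfl⟩, fun n => ⟨rfl, rfl⟩, ?_⟩
  intro O hO hP n hn
  have h1 := count_add hO n
  have h2 := half_lt hn
  have h3 := he n
  have h4 := hP n
  refine ⟨⟨fun hM => ?_, fun hM y z => ?_⟩, ⟨fun hM y z => ?_, fun hM => ?_⟩⟩
  · obtain ⟨y, hy⟩ := alg_yes (O := O) (n := n) (K := e n + 1) (a := true) (b := true) (by
      unfold Majority at hM
      omega)
    exact ⟨y, fun z => hy⟩
  · show (alg n (e n + 1) true true y).run O = false
    by_contra h
    rw [Bool.not_eq_false] at h
    have h5 := alg_no y h
    unfold Majority at hM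
    omega
  · show (alg n (e n + 1) false false z).run O = true
    by_contra h
    rw [Bool.not_eq_true] at h
    have h5 := alg_no z h
    unfold Majority at hM
    omega
  · obtain ⟨z, hz⟩ := alg_yes (O := O) (n := n) (K := e n + 1) (a := false) (b := false) (by
      unfold Majority at hM
      omega)
    exact ⟨z, fun y => hz⟩

end Pool.Agent.H.MP_7934a7_lc.Thr.Maj
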