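import Pool.Agent.H.MP_7934a7_lc.Thr.Defs

/-!
# Few exceptions: the positive part

`y` is a list of `e n + 1` pairs (position, witness) of the instance `x` (for `V'` also `x`), the
verifier checks that the positions are distinct and that every pair has value `true`.
-/

set_option autoImplicit false

namespace Pool.Agent.H.MP_7934a7_lc.Thr

open Pool.Agent.H.MP_7934a7_lc.h89.OneQ

/-- the pairs (position, witness) written in a string -/
def dec (n K : ℕ) (y : Fin (K * (4 * n)) → Bool) (i : Fin K) : Pos n × Wit n :=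
  (fun j => y (finProdFinEquiv (i, ⟨j.1, by have := j.2; omega⟩)),
    fun j => y (finProdFinEquiv (i, ⟨2 * n + j.1, by have := j.2; omega⟩)))

theorem dec_surj (n K : ℕ) (f : Fin K → Pos n × Wit n) :
    ∃ y : Fin (K * (4 * n)) → Bool, dec n K y = f := by
  classical
  refine ⟨fun k => if h : (finProdFinEquiv.symm k).2.1 < 2 * n then
      (f (finProdFinEquiv.symm k).1).1 ⟨(finProdFinEquiv.symm k).2.1, h⟩
    else (f (finProdFinEquiv.symm k).1).2 ⟨(finProdFinEquiv.symm k).2.1 - 2 * n, by
      have := (finProdFinEquiv.symm k).2.2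
      omega⟩, ?_⟩
  funext i
  refine Prod.ext ?_ ?_
  · funext j
    have hj := j.2
    simp only [dec, Equiv.symm_apply_apply]
    rw [dif_pos hj]
  · funext j
    simp only [dec, Equiv.symm_apply_apply]
    rw [dif_neg (by omega)]
    exact congrArg (f i).2 (Fin.ext (by simp))

/-- ask for the values of all pairs -/
def chk (n : ℕ) (x : Ins n) : List (Pos n × Wit n) → Alg
  | [] => Alg.out true
  | p :: l => Alg.look n x p.1 p.2 fun a => if a = some true then chk n x l else Alg.out false

theorem chk_atMost (n : ℕ) (x : Ins n) (l : List (Pos n × Wit n)) :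
    (chk n x l).AtMost l.length := by
  induction l with
  | nil => trivial
  | cons p l ih =>
    intro a
    show (if a = some true then chk n x l else Alg.out false).AtMost l.length
    split
    · exact ih
    · trivial

theorem chk_run (O : World) (n : ℕ) (x : Ins n) (l : List (Pos n × Wit n)) :
    (chk n x l).run O = true ↔ ∀ p ∈ l, O n x p.1 p.2 = some true := by
  induction l with
  | nil => simp [chk, Alg.run]
  | cons p l ih =>
    show (if O n x p.1 p.2 = some true then chk n x l else Alg.out false).run O = true ↔ _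
    by_cases h : O n x p.1 p.2 = some true
    · rw [if_pos h, ih]
      simp [h]
    · rw [if_neg h]
      simp [h, Alg.run]

open Classical in
/-- the check of a list of pairs -/
noncomputable def alg (n K : ℕ) (x : Ins n) (y : Fin (K * (4 * n)) → Bool) : Alg :=
  if Function.Injective (fun i => (dec n K y i).1) then chk n x (List.ofFn (dec n K y))
  else Alg.out false

theorem alg_atMost (n K : ℕ) (x : Ins n) (y : Fin (K * (4 * n)) → Bool) :
    (alg n K x y).AtMost K := by
  unfold alg
  split
  · have h := chk_atMost n x (List.ofFn (dec n K y))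
    rwa [List.length_ofFn] at h
  · cases K <;> trivial

theorem alg_run (O : World) (n K : ℕ) (x : Ins n) (y : Fin (K * (4 * n)) → Bool) :
    (alg n K x y).run O = true ↔ Function.Injective (fun i => (dec n K y i).1) ∧
      ∀ i, O n x (dec n K y i).1 (dec n K y i).2 = some true := by
  unfold alg
  by_cases h : Function.Injective (fun i => (dec n K y i).1)
  · rw [if_pos h, chk_run]
    simp only [h, true_and, List.forall_mem_ofFn_iff]
  · rw [if_neg h]
    simp [h, Alg.run]

theorem alg_yes {O : World} {n K : ℕ} {x : Ins n} (hx : InL O n x) (hK : K ≤ 2 ^ (2 * n)) :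
    ∃ y, (alg n K x y).run O = true := by
  classical
  obtain ⟨g⟩ : Nonempty (Fin K ↪ Pos n) := by
    apply Function.Embedding.nonempty_of_card_le
    simpa using hK
  choose w hw using hx
  obtain ⟨y, hy⟩ := dec_surj n K fun i => (g i, w (g i))
  refine ⟨y, (alg_run O n K x y).2 ?_⟩
  rw [hy]
  exact ⟨g.injective, fun i => hw (g i)⟩

theorem alg_no {e : ℕ → ℕ} {O : World} (hP : PromiseE e O) {n : ℕ} {x : Ins n}
    (hx : ¬ InL O n x) (y : Fin ((e n + 1) * (4 * n)) → Bool) :
    (alg n (e n + 1) x y).run O = false := by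
  by_contra h
  rw [Bool.not_eq_false] at h
  obtain ⟨h1, h2⟩ := (alg_run O n _ x y).1 h
  have h3 : {u : Pos n | HasValue O n x u true}.ncard ≤ e n := (hP n x).resolve_left hx
  have h4 : Set.range (fun i => (dec n (e n + 1) y i).1) ⊆ {u : Pos n | HasValue O n x u true} := by
    rintro _ ⟨i, rfl⟩
    exact ⟨_, h2 i⟩
  have h5 := Set.ncard_le_ncard h4 (Set.toFinite _)
  rw [← Set.image_univ, Set.ncard_image_of_injective _ h1, Set.ncard_univ] at h5
  simp at h5
  omega

theorem pos (e : ℕ → ℕ) (he : ∀ n, 1 ≤ n → e n < 2 ^ (2 * n)) : ∃ V V' : Verifier,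
    (∀ n, V.len n = (e n + 1) * (4 * n)) ∧ (∀ n, V.cost n = e n + 1) ∧
    (∀ n, V'.len n = n + (e n + 1) * (4 * n)) ∧ (∀ n, V'.cost n = e n + 1) ∧
    ∀ O, Valid O → PromiseE e O → ∀ n, 1 ≤ n → ProvesL V O n ∧ ProvesT V' O n := by
  refine ⟨⟨fun n => (e n + 1) * (4 * n), fun n => e n + 1,
      fun n x y _ => alg n (e n + 1) x y, fun n x y _ => alg_atMost _ _ _ _⟩,
    ⟨fun n => n + (e n + 1) * (4 * n), fun n => e n + 1,
      fun n _ y _ => alg n (e n + 1) (fun j => y (Fin.castAdd _ j))
        (fun j => y (Fin.natAdd _ j)), fun n x y _ => alg_atMost _ _ _ _⟩,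
    fun n => rfl, fun n => rfl, fun n => rfl, fun n => rfl, ?_⟩
  intro O _ hP n hn
  refine ⟨⟨fun x hx => ?_, fun x hx y z => ?_⟩, ⟨?_, fun hT y z => ?_⟩⟩
  · obtain ⟨y, hy⟩ := alg_yes (K := e n + 1) hx (he n hn)
    exact ⟨y, fun z => hy⟩
  · exact alg_no hP hx y
  · rintro ⟨x, hx⟩
    obtain ⟨y, hy⟩ := alg_yes (K := e n + 1) hx (he n hn)
    refine ⟨Fin.append x y, fun z => ?_⟩
    show (alg n (e n + 1) (fun j => Fin.append x y (Fin.castAdd _ j))
        (fun j => Fin.append x y (Fin.natAdd _ j))).run O = true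
    simp only [Fin.append_left, Fin.append_right]
    exact hy
  · exact alg_no hP (fun hx => hT ⟨_, hx⟩) _

end Pool.Agent.H.MP_7934a7_lc.Thr
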